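import Pool.Agent.W331.DT.Defs

/-! If every finitely generated subgroup of a group of homeomorphisms of a compact Hausdorff
space preserves a regular Borel probability measure, then so does the group. `exists_limit` is
taken from the library of helper443 (`Pool.Agent.Y443.MSA`). -/

set_option autoImplicit false

namespace Pool.Agent.Y56.DT

open MeasureTheory Topology Filter Set CompactlySupported CompactlySupportedContinuousMap
open scoped ENNReal BoundedContinuousFunction

/-- Limits of regular probability measures along an ultrafilter. -/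
theorem exists_limit {Z : Type*} [TopologicalSpace Z] [CompactSpace Z] [T2Space Z]
    [MeasurableSpace Z] [BorelSpace Z] {α : Type*} (𝒰 : Ultrafilter α)
    (u : α → ProbabilityMeasure Z) :
    ∃ ρ : ProbabilityMeasure Z, (ρ : Measure Z).Regular ∧ Tendsto u 𝒰 (𝓝 ρ) := by
  have hint : ∀ (m : ProbabilityMeasure Z) (g : C(Z, ℝ)), Integrable g (m : Measure Z) :=
    fun m g => Integrable.of_bound g.continuous.aestronglyMeasurable ‖g‖
      (Eventually.of_forall fun y => g.norm_coe_le_norm y)
  have hbd : ∀ (m : ProbabilityMeasure Z) (g : C(Z, ℝ)), ∫ y, g y ∂(m : Measure Z) ∈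
      Icc (-‖g‖) ‖g‖ := by
    intro m g
    have h5 := norm_integral_le_of_norm_le_const (μ := (m : Measure Z))
      (Eventually.of_forall fun y => g.norm_coe_le_norm y : ∀ᵐ y ∂(m : Measure Z), ‖g y‖ ≤ ‖g‖)
    simp only [probReal_univ, mul_one, Real.norm_eq_abs] at h5
    exact abs_le.1 h5
  have hlim : ∀ g : C(Z, ℝ), ∃ v : ℝ,
      Tendsto (fun a => ∫ y, g y ∂(u a : Measure Z)) 𝒰 (𝓝 v) := by
    intro g
    have hc : IsCompact (Icc (-‖g‖) ‖g‖) := isCompact_Icc
    obtain ⟨v, _, hv⟩ := hc.ultrafilter_le_nhds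
      (𝒰.map fun a => ∫ y, g y ∂(u a : Measure Z)) (by
        rw [le_principal_iff, Ultrafilter.mem_coe, Ultrafilter.mem_map]
        exact Filter.Eventually.of_forall (fun a => hbd (u a) g))
    exact ⟨v, hv⟩
  choose Φ hΦ using hlim
  let Λ : C_c(Z, ℝ) →ₚ[ℝ] ℝ :=
  { toFun g := Φ g.toContinuousMap
    map_add' g g' := by
      refine tendsto_nhds_unique (hΦ _) ?_
      refine ((hΦ g.toContinuousMap).add (hΦ g'.toContinuousMap)).congr fun a => ?_
      rw [← integral_add (hint _ _) (hint _ _)]
      rfl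
    map_smul' c g := by
      refine tendsto_nhds_unique (hΦ _) ?_
      refine ((hΦ g.toContinuousMap).const_mul c).congr fun a => ?_
      rw [← integral_const_mul]
      rfl
    monotone' g g' hgg' := by
      refine le_of_tendsto_of_tendsto' (hΦ g.toContinuousMap) (hΦ g'.toContinuousMap) fun a => ?_
      exact integral_mono (hint _ _) (hint _ _) fun y => hgg' y }
  have hf : ∀ f : C(Z, ℝ), ∫ a, f a ∂(RealRMK.rieszMeasure Λ) = Φ f := by
    intro f
    let g' : C_c(Z, ℝ) :=
      { toFun := f
        hasCompactSupport' := HasCompactSupport.of_compactSpace _ }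
    exact RealRMK.integral_rieszMeasure Λ g'
  have hprob : IsProbabilityMeasure (RealRMK.rieszMeasure Λ) := by
    have h1 := hf (ContinuousMap.const _ 1)
    have h0 : Φ (ContinuousMap.const _ 1) = 1 := by
      refine tendsto_nhds_unique (hΦ _) ?_
      simp only [ContinuousMap.const_apply, integral_const, smul_eq_mul, mul_one, probReal_univ]
      exact tendsto_const_nhds
    rw [h0] at h1
    simp only [ContinuousMap.const_apply, integral_const, smul_eq_mul, mul_one] at h1
    constructor
    have h2 : (RealRMK.rieszMeasure Λ).real univ = 1 := h1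
    rw [measureReal_def] at h2
    have h3 := congrArg ENNReal.ofReal h2
    rwa [ENNReal.ofReal_toReal (measure_ne_top _ _), ENNReal.ofReal_one] at h3
  let ρ : ProbabilityMeasure Z := ⟨RealRMK.rieszMeasure Λ, hprob⟩
  have hρ : (ρ : Measure Z) = RealRMK.rieszMeasure Λ := rfl
  refine ⟨ρ, ?_, ?_⟩
  · rw [hρ]
    infer_instance
  rw [ProbabilityMeasure.tendsto_iff_forall_integral_tendsto]
  intro f
  have h1 := hΦ f.toContinuousMap
  have h2 := hf f.toContinuousMap
  rw [hρ]
  have h3 : ∫ y, f y ∂(RealRMK.rieszMeasure Λ) = Φ f.toContinuousMap := h2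
  rw [h3]
  exact h1


open Pool.Agent.W331.DT in
theorem exists_fg {X : Type*} [TopologicalSpace X] [CompactSpace X] [T2Space X]
    (H : Subgroup (X ≃ₜ X)) (hH : ¬ PreservesMeasure H) :
    ∃ K : Subgroup (X ≃ₜ X), K ≤ H ∧ K.FG ∧ ¬ PreservesMeasure K := by
  classical
  by_contra hcon
  push Not at hcon
  let mX : MeasurableSpace X := borel X
  have bX : BorelSpace X := ⟨rfl⟩
  have key : ∀ F : Finset H, ∃ μ : ProbabilityMeasure X,
      ∀ h ∈ F, (μ : Measure X).map ((h : X ≃ₜ X) : X → X) = μ := by
    intro F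
    obtain ⟨μ, hμ, -, hinv⟩ := hcon (Subgroup.closure ((F.image (fun h : H => (h : X ≃ₜ X)) :
      Finset (X ≃ₜ X)) : Set (X ≃ₜ X))) (by
        rw [Subgroup.closure_le]
        intro g hg
        rw [Finset.mem_coe, Finset.mem_image] at hg
        obtain ⟨h, -, rfl⟩ := hg
        exact h.2) ⟨_, rfl⟩
    refine ⟨⟨μ, hμ⟩, fun h hh => hinv _ (Subgroup.subset_closure ?_)⟩
    rw [Finset.mem_coe, Finset.mem_image]
    exact ⟨h, hh, rfl⟩
  choose u hu using key
  obtain ⟨ρ, hreg, hlim⟩ := exists_limit (Ultrafilter.of (atTop : Filter (Finset H))) u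
  apply hH
  refine ⟨ρ, ρ.2, hreg, fun h hh => ?_⟩
  have hreg' : ((ρ : Measure X).map h).Regular := Measure.Regular.map h
  apply Measure.ext_of_integral_eq_on_compactlySupported
  intro f
  have hint : ∀ m : Measure X, ∫ x, f x ∂(m.map h) = ∫ x, f (h x) ∂m := fun m =>
    integral_map h.continuous.measurable.aemeasurable f.continuous.aestronglyMeasurable
  rw [hint]
  rw [ProbabilityMeasure.tendsto_iff_forall_integral_tendsto] at hlim
  have h1 := hlim (BoundedContinuousFunction.mkOfCompact ⟨f, f.continuous⟩)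
  have h2 := hlim (BoundedContinuousFunction.mkOfCompact ⟨fun x => f (h x),
    f.continuous.comp h.continuous⟩)
  simp only [BoundedContinuousFunction.mkOfCompact_apply, ContinuousMap.coe_mk] at h1 h2
  have h3 : ∀ᶠ F : Finset H in (Ultrafilter.of (atTop : Filter (Finset H)) : Filter (Finset H)),
      ∫ x, f (h x) ∂(u F : Measure X) = ∫ x, f x ∂(u F : Measure X) := by
    have h4 : ∀ᶠ F : Finset H in (atTop : Filter (Finset H)), (⟨h, hh⟩ : H) ∈ F := by
      filter_upwards [eventually_ge_atTop ({⟨h, hh⟩} : Finset H)] with F hF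
      exact hF (Finset.mem_singleton_self _)
    have h5 : ∀ᶠ F : Finset H in (Ultrafilter.of (atTop : Filter (Finset H)) :
        Filter (Finset H)), (⟨h, hh⟩ : H) ∈ F := Ultrafilter.of_le _ h4
    filter_upwards [h5] with F hF
    rw [← hint, hu F ⟨h, hh⟩ hF]
  exact tendsto_nhds_unique (h2.congr' h3) h1

open Pool.Agent.W331.DT in
/-- If a set of homeomorphisms of a compact Hausdorff space does not satisfy the dynamical Tits
alternative then this is visible on a finitely generated subgroup. -/
theorem fg_of_not {X : Type*} [TopologicalSpace X] [CompactSpace X] [T2Space X]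
    {G : Set (X ≃ₜ X)} (hG : ¬ SatisfiesDTA G) :
    ∃ K : Subgroup (X ≃ₜ X), K.FG ∧ (K : Set (X ≃ₜ X)) ⊆ G ∧ ¬ PreservesMeasure K ∧
      ¬ HasPingPong K := by
  unfold SatisfiesDTA at hG
  push Not at hG
  obtain ⟨H, hHG, h1, h2⟩ := hG
  obtain ⟨K, hK, hfg, h3⟩ := exists_fg H h1
  refine ⟨K, hfg, fun g hg => hHG (hK hg), h3, ?_⟩
  rintro ⟨g, hg, h, hh, rest⟩
  exact h2 ⟨g, hK hg, h, hK hh, rest⟩

end Pool.Agent.Y56.DT
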